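import Pool.Agent.Helper5.RO.Goals

/-!
# Project RO (MP_a41896_nt), packet NFA: `stN` is a form of degree `2^n D` in every triple
-/

namespace Pool.Agent.Helper95.RO

open MvPolynomial Pool.Agent.Helper5.RO

section

/-- the weight of a triple -/
def wt {n : ℕ} (i : Fin n) : Fin n × Fin 3 → ℕ := fun p => if p.1 = i then 1 else 0

theorem weight_wt {n : ℕ} (i : Fin n) (m : Fin n × Fin 3 →₀ ℕ) :
    Finsupp.weight (wt i) m = m (i, 0) + m (i, 1) + m (i, 2) := by
  rw [Finsupp.weight_apply, Finsupp.sum_fintype _ _ (fun p => by simp), Fintype.sum_prod_type,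
    Finset.sum_eq_single i]
  · simp [wt, Fin.sum_univ_three]
  · intro j _ hj
    simp [wt, hj]
  · intro h
    exact absurd (Finset.mem_univ _) h

theorem weight_map {σ τ : Type} (w : τ → ℕ) (F : σ → τ) (m : σ →₀ ℕ) :
    Finsupp.weight w (m.mapDomain F) = Finsupp.weight (w ∘ F) m := by
  rw [Finsupp.weight_apply, Finsupp.weight_apply]
  rw [Finsupp.sum_mapDomain_index (fun _ => by simp) (fun _ _ _ => by simp [add_mul])]
  rfl

variable {R : Type} [CommRing R] {σ : Type}

theorem pw_hom {w : σ → ℕ} {f : ℕ} {q d : MvPolynomial σ R} (hq : IsWeightedHomogeneous w q f)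
    (hd : IsWeightedHomogeneous w d (f + f)) (m : ℕ) :
    IsWeightedHomogeneous w (pw q d m) (f * m) ∧
      IsWeightedHomogeneous w (pw q d (m + 1)) (f * (m + 1)) := by
  induction m with
  | zero =>
    refine ⟨?_, ?_⟩
    · have h : (pw q d 0 : MvPolynomial σ R) = C 2 := by
        exact (map_ofNat (C : R →+* MvPolynomial σ R) 2).symm
      rw [h, mul_zero]
      exact isWeightedHomogeneous_C w 2
    · have h : (pw q d (0 + 1) : MvPolynomial σ R) = q := rfl
      rw [h, zero_add, mul_one]
      exact hq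
  | succ m ih =>
    refine ⟨ih.2, ?_⟩
    have h : (pw q d (m + 1 + 1) : MvPolynomial σ R) = q * pw q d (m + 1) - d * pw q d m := rfl
    rw [h]
    have h1 := hq.mul ih.2
    have h2 := hd.mul ih.1
    have e1 : f + f * (m + 1) = f * (m + 1 + 1) := by ring
    have e2 : f + f + f * m = f * (m + 1 + 1) := by ring
    rw [e1] at h1
    rw [e2] at h2
    exact (weightedHomogeneousSubmodule R w (f * (m + 1 + 1))).sub_mem h1 h2

theorem nrm_hom {w : σ → ℕ} {e f : ℕ} {D : ℕ} {g : ℕ → MvPolynomial σ R}
    {p q r : MvPolynomial σ R} (hg : ∀ k, IsWeightedHomogeneous w (g k) e)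
    (hp : IsWeightedHomogeneous w p f) (hq : IsWeightedHomogeneous w q f)
    (hr : IsWeightedHomogeneous w r f) :
    IsWeightedHomogeneous w (nrm D g p q r) (e + e + f * D) := by
  unfold nrm
  refine (weightedHomogeneousSubmodule R w (e + e + f * D)).add_mem ?_ ?_
  · refine (weightedHomogeneousSubmodule R w (e + e + f * D)).sum_mem fun k hk => ?_
    rw [Finset.mem_range] at hk
    have h := (((hg k).pow 2).mul (hp.pow k)).mul (hr.pow (D - k))
    have e1 : 2 • e + k • f + (D - k) • f = e + e + f * D := by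
      obtain ⟨t, rfl⟩ : ∃ t, D = k + t := ⟨D - k, by omega⟩
      rw [Nat.add_sub_cancel_left]
      simp only [smul_eq_mul]
      ring
    rw [e1] at h
    exact h
  · refine (weightedHomogeneousSubmodule R w (e + e + f * D)).sum_mem fun l hl => ?_
    refine (weightedHomogeneousSubmodule R w (e + e + f * D)).sum_mem fun k hk => ?_
    rw [Finset.mem_range] at hl hk
    have hd := hp.mul hr
    have h := (((((hg k).mul (hg l)).mul (hp.pow k)).mul (hr.pow (D - l))).mul
      (pw_hom hq hd (l - k)).1)
    have e1 : e + e + k • f + (D - l) • f + f * (l - k) = e + e + f * D := by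
      obtain ⟨s, rfl⟩ : ∃ s, l = k + s := ⟨l - k, by omega⟩
      obtain ⟨t, rfl⟩ : ∃ t, D = k + s + t := ⟨D - (k + s), by omega⟩
      rw [Nat.add_sub_cancel_left, Nat.add_sub_cancel_left]
      simp only [smul_eq_mul]
      ring
    rw [e1] at h
    exact h

theorem cN_hom {n : ℕ} {w : Fin (n + 1) × Fin 3 → ℕ} {e : ℕ} (k : ℕ)
    (N : MvPolynomial (Fin n × Fin 3) (Polynomial R))
    (h : ∀ m ∈ N.support, Finsupp.weight (w ∘ Prod.map Fin.succ id) m = e) :
    IsWeightedHomogeneous w (cN k N) e := by
  unfold cN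
  refine (weightedHomogeneousSubmodule R w e).sum_mem fun m hm => ?_
  refine isWeightedHomogeneous_monomial w _ _ ?_
  rw [weight_map]
  exact h m hm

end

theorem gNFA : G_NFA := by
  intro R _ n D N hN m hm i
  rw [← weight_wt]
  have hc : coeff m (stN D N) ≠ 0 := mem_support_iff.mp hm
  refine Fin.cases ?_ (fun i' => ?_) i
  · have h := nrm_hom (w := wt (0 : Fin (n + 1))) (e := 0) (f := 1) (D := 2 ^ n * D)
      (g := fun k => cN k N) (p := (X (0, 0) : MvPolynomial (Fin (n + 1) × Fin 3) R))
      (q := X (0, 1)) (r := X (0, 2))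
      (fun k => cN_hom k N fun m' _ => by
        have e0 : (wt (0 : Fin (n + 1))) ∘ Prod.map Fin.succ (id : Fin 3 → Fin 3) = fun _ => 0 := by
          funext p
          simp [wt]
        rw [e0, Finsupp.weight_apply]
        simp)
      (by
        have := isWeightedHomogeneous_X R (wt (0 : Fin (n + 1))) ((0, 0) : Fin (n + 1) × Fin 3)
        simpa [wt] using this)
      (by
        have := isWeightedHomogeneous_X R (wt (0 : Fin (n + 1))) ((0, 1) : Fin (n + 1) × Fin 3)
        simpa [wt] using this)
      (by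
        have := isWeightedHomogeneous_X R (wt (0 : Fin (n + 1))) ((0, 2) : Fin (n + 1) × Fin 3)
        simpa [wt] using this)
    have h2 := h hc
    rw [h2]
    ring
  · have hn : 1 ≤ n := by
      have := i'.2
      omega
    have h := nrm_hom (w := wt i'.succ) (e := 2 ^ (n - 1) * D) (f := 0) (D := 2 ^ n * D)
      (g := fun k => cN k N) (p := (X (0, 0) : MvPolynomial (Fin (n + 1) × Fin 3) R))
      (q := X (0, 1)) (r := X (0, 2))
      (fun k => cN_hom k N fun m' hm' => by
        have e0 : (wt i'.succ) ∘ Prod.map Fin.succ (id : Fin 3 → Fin 3) = wt i' := by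
          funext p
          simp [wt]
        rw [e0, weight_wt]
        exact hN m' hm' i')
      (by
        have := isWeightedHomogeneous_X R (wt i'.succ) ((0, 0) : Fin (n + 1) × Fin 3)
        simpa [wt, Fin.succ_ne_zero, (Fin.succ_ne_zero i').symm] using this)
      (by
        have := isWeightedHomogeneous_X R (wt i'.succ) ((0, 1) : Fin (n + 1) × Fin 3)
        simpa [wt, Fin.succ_ne_zero, (Fin.succ_ne_zero i').symm] using this)
      (by
        have := isWeightedHomogeneous_X R (wt i'.succ) ((0, 2) : Fin (n + 1) × Fin 3)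
        simpa [wt, Fin.succ_ne_zero, (Fin.succ_ne_zero i').symm] using this)
    have h2 := h hc
    rw [h2, zero_mul, add_zero]
    obtain ⟨k, rfl⟩ : ∃ k, n = k + 1 := ⟨n - 1, by omega⟩
    rw [Nat.add_sub_cancel]
    ring

end Pool.Agent.Helper95.RO
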